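import Pool.Agent.Lib.MP_c3ee0c_lc.Main

/-!
4-COLORING is NP-complete on `(P8, C7)`-free graphs.
-/

namespace Pool.Agent.Results.MP_c3ee0c_lc.Q2NPComplete

open Pool.Agent.Lib.MP_c3ee0c_lc

theorem result :
    N793a5b8e.IsCompleteFor N68a2faeb.NP colLang ∧
      ∀ L ∈ N68a2faeb.NP, ∃ f : List Bool → List Bool, N68a2faeb.IsPolyTime f ∧
        ∀ x : List Bool, ∃ (n : ℕ) (G : SimpleGraph (Fin n)),
          f x = adjWord G ∧ FreeP8C7 G ∧ (L x = true ↔ G.Colorable 4) :=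
  ⟨⟨colLang_mem_NP, reducible⟩, hard⟩

end Pool.Agent.Results.MP_c3ee0c_lc.Q2NPComplete
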